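import Mathlib

set_option autoImplicit false

/-!
# Preperiodic points of `z² + z` never sum to `1` in threes

Every complex number with bounded orbit under `z ↦ z² + z` has real part less than `1 / 3`.
With `w = z + 1 / 2` the map becomes `w ↦ w² + 1 / 4`.
The proof covers the relevant part of the half plane `Re w ≥ 5 / 6` by small squares, each of which
is seen to escape by a computation with disks in integer arithmetic (scaled by `S = 2 ^ 20`).
Preperiodic points of `f` in the algebraic closure of `ℚ` are embedded into the complex numbers.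
-/

namespace Pool.Agent.Results.MP_a37635_nt.SumNotOne

/-- the map `w ↦ w² + 1 / 4` -/
noncomputable def g (w : ℂ) : ℂ := w ^ 2 + 1 / 4

/-- `w` leaves the disk of radius `1.2075` under iteration of `g` -/
def Esc (w : ℂ) : Prop := ∃ n : ℕ, (1.2075 : ℝ) < ‖g^[n] w‖

lemma Esc.of_g {w : ℂ} (h : Esc (g w)) : Esc w := by
  obtain ⟨n, hn⟩ := h
  exact ⟨n + 1, by rwa [Function.iterate_succ_apply]⟩

/-- the scale -/
def S : ℤ := 2 ^ 20

/-- one step with disks: center `(X, Y)` and radius `r`, all scaled by `S` -/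
def escapes : ℕ → ℤ → ℤ → ℤ → Bool
  | 0, X, Y, r => decide ((1267000 + r) ^ 2 < X ^ 2 + Y ^ 2)
  | n + 1, X, Y, r => decide ((1267000 + r) ^ 2 < X ^ 2 + Y ^ 2) ||
      escapes n ((X ^ 2 - Y ^ 2) / S + 262144) (2 * X * Y / S)
        (r * (X ^ 2 + Y ^ 2 + S ^ 2 + r * S) / S ^ 2 + 3)

/-- recursive subdivision of a square with center `(X, Y)` and half side `h` -/
def cover : ℕ → ℤ → ℤ → ℤ → Bool
  | 0, X, Y, h => escapes 6 X Y (3 * h / 2 + 1)
  | n + 1, X, Y, h => escapes 6 X Y (3 * h / 2 + 1) ||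
      (cover n (X - h / 2) (Y - h / 2) (h / 2) && cover n (X - h / 2) (Y + h / 2) (h / 2) &&
        cover n (X + h / 2) (Y - h / 2) (h / 2) && cover n (X + h / 2) (Y + h / 2) (h / 2))

lemma S_real : ((S : ℤ) : ℝ) = 1048576 := by norm_num [S]

/-- a disk with large center consists of escaping points -/
lemma esc_of_far {w : ℂ} {X Y r : ℤ}
    (hw : ‖w * (S : ℂ) - ((X : ℂ) + (Y : ℂ) * Complex.I)‖ ≤ (r : ℝ))
    (h : (1267000 + r) ^ 2 < X ^ 2 + Y ^ 2) : Esc w := by
  refine ⟨0, ?_⟩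
  simp only [Function.iterate_zero, id_eq]
  have hc : (1267000 + r : ℝ) < ‖((X : ℂ) + (Y : ℂ) * Complex.I)‖ := by
    have h1 : ‖((X : ℂ) + (Y : ℂ) * Complex.I)‖ = Real.sqrt ((X : ℝ) ^ 2 + (Y : ℝ) ^ 2) := by
      have := Complex.norm_add_mul_I (X : ℝ) (Y : ℝ)
      simpa using this
    rw [h1]
    apply Real.lt_sqrt_of_sq_lt
    exact_mod_cast h
  have h2 : ‖((X : ℂ) + (Y : ℂ) * Complex.I)‖ ≤ ‖w * (S : ℂ)‖ + r := by
    have := norm_sub_norm_le ((X : ℂ) + (Y : ℂ) * Complex.I) (w * (S : ℂ))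
    rw [norm_sub_rev] at this
    linarith
  have h3 : ‖w * (S : ℂ)‖ = ‖w‖ * 1048576 := by
    rw [norm_mul]
    congr 1
    have : (S : ℂ) = ((1048576 : ℝ) : ℂ) := by norm_num [S]
    rw [this, Complex.norm_real]
    norm_num
  rw [h3] at h2
  have : (1267000 : ℝ) < ‖w‖ * 1048576 := by linarith
  norm_num
  linarith

/-- floor division of a real number -/
lemma div_err (a b : ℤ) (hb : 0 < b) :
    ((a / b : ℤ) : ℝ) ≤ (a : ℝ) / b ∧ (a : ℝ) / b < ((a / b : ℤ) : ℝ) + 1 := by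
  have hb' : (0 : ℝ) < b := by exact_mod_cast hb
  have h1 : (a / b) * b + a % b = a := Int.ediv_mul_add_emod a b
  have h2 : 0 ≤ a % b := Int.emod_nonneg a hb.ne'
  have h3 : a % b < b := Int.emod_lt_of_pos a hb
  have h1' : ((a / b : ℤ) : ℝ) * b + ((a % b : ℤ) : ℝ) = a := by exact_mod_cast h1
  have h2' : (0 : ℝ) ≤ ((a % b : ℤ) : ℝ) := by exact_mod_cast h2
  have h3' : ((a % b : ℤ) : ℝ) < b := by exact_mod_cast h3
  constructor
  · rw [le_div_iff₀ hb']; linarith
  · rw [div_lt_iff₀ hb']; linarith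

/-- the image of a disk is contained in the next disk -/
lemma step_disk {w : ℂ} {X Y r : ℤ} (hr : 0 ≤ r)
    (hw : ‖w * (S : ℂ) - ((X : ℂ) + (Y : ℂ) * Complex.I)‖ ≤ (r : ℝ)) :
    ‖g w * (S : ℂ) - ((((X ^ 2 - Y ^ 2) / S + 262144 : ℤ) : ℂ) +
      ((2 * X * Y / S : ℤ) : ℂ) * Complex.I)‖ ≤
      ((r * (X ^ 2 + Y ^ 2 + S ^ 2 + r * S) / S ^ 2 + 3 : ℤ) : ℝ) := by
  have hS : (0 : ℤ) < S := by norm_num [S]
  have hSr : (0 : ℝ) < (S : ℝ) := by exact_mod_cast hS
  have hSc : (S : ℂ) ≠ 0 := by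
    have : (S : ℤ) ≠ 0 := hS.ne'
    exact_mod_cast this
  obtain ⟨e1, e2⟩ := div_err (X ^ 2 - Y ^ 2) S hS
  obtain ⟨e3, e4⟩ := div_err (2 * X * Y) S hS
  obtain ⟨-, e6⟩ := div_err (r * (X ^ 2 + Y ^ 2 + S ^ 2 + r * S)) (S ^ 2) (by positivity)
  set c : ℂ := (X : ℂ) + (Y : ℂ) * Complex.I with hc
  set q1 : ℤ := (X ^ 2 - Y ^ 2) / S with hq1
  set q2 : ℤ := 2 * X * Y / S with hq2
  set q3 : ℤ := r * (X ^ 2 + Y ^ 2 + S ^ 2 + r * S) / S ^ 2 with hq3
  -- the exact image of the center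
  have hS4 : (S : ℂ) * (1 / 4) = 262144 := by norm_num [S]
  have key : g w * (S : ℂ) - (((q1 + 262144 : ℤ) : ℂ) + ((q2 : ℤ) : ℂ) * Complex.I) =
      (w * (S : ℂ) - c) * (w * (S : ℂ) + c) / (S : ℂ) +
        (((((X ^ 2 - Y ^ 2 : ℤ) : ℝ) / (S : ℝ) - (q1 : ℝ) : ℝ) : ℂ) +
          ((((2 * X * Y : ℤ) : ℝ) / (S : ℝ) - (q2 : ℝ) : ℝ) : ℂ) * Complex.I) := by
    unfold g
    have hI : Complex.I ^ 2 = -1 := Complex.I_sq
    push_cast
    rw [hc]
    field_simp
    rw [show (262144 : ℂ) = (S : ℂ) * (1 / 4) from hS4.symm]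
    ring_nf
    rw [hI]
    ring
  rw [key]
  have hcn : ‖c‖ ^ 2 = (X : ℝ) ^ 2 + (Y : ℝ) ^ 2 := by
    have h1 : ‖c‖ = Real.sqrt ((X : ℝ) ^ 2 + (Y : ℝ) ^ 2) := by
      have := Complex.norm_add_mul_I (X : ℝ) (Y : ℝ)
      simpa [hc] using this
    rw [h1, Real.sq_sqrt (by positivity)]
  have hnS : ‖(S : ℂ)‖ = (S : ℝ) := by
    have : (S : ℂ) = ((S : ℝ) : ℂ) := by push_cast; rfl
    rw [this, Complex.norm_real, Real.norm_of_nonneg hSr.le]
  -- the main term
  have hsum : ‖w * (S : ℂ) + c‖ ≤ 2 * ‖c‖ + r := by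
    have : w * (S : ℂ) + c = (w * (S : ℂ) - c) + 2 * c := by ring
    rw [this]
    refine (norm_add_le _ _).trans ?_
    rw [norm_mul]
    norm_num
    linarith
  have hr' : (0 : ℝ) ≤ r := by exact_mod_cast hr
  have h1 : ‖(w * (S : ℂ) - c) * (w * (S : ℂ) + c) / (S : ℂ)‖ ≤
      (r : ℝ) * (2 * ‖c‖ + r) / (S : ℝ) := by
    rw [norm_div, norm_mul, hnS]
    gcongr
  -- `2 |c| S ≤ |c|² + S²`
  have h2 : (r : ℝ) * (2 * ‖c‖ + r) / (S : ℝ) ≤
      (r : ℝ) * ((X : ℝ) ^ 2 + (Y : ℝ) ^ 2 + (S : ℝ) ^ 2 + r * S) / (S : ℝ) ^ 2 := by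
    rw [div_le_div_iff₀ hSr (by positivity)]
    have h3 : 2 * ‖c‖ * (S : ℝ) ≤ (X : ℝ) ^ 2 + (Y : ℝ) ^ 2 + (S : ℝ) ^ 2 := by
      nlinarith [sq_nonneg (‖c‖ - (S : ℝ))]
    have h4 : (2 * ‖c‖ + r) * (S : ℝ) ≤ (X : ℝ) ^ 2 + (Y : ℝ) ^ 2 + (S : ℝ) ^ 2 + r * S := by
      linarith
    calc (r : ℝ) * (2 * ‖c‖ + r) * (S : ℝ) ^ 2 = (r : ℝ) * S * ((2 * ‖c‖ + r) * S) := by ring
      _ ≤ (r : ℝ) * S * ((X : ℝ) ^ 2 + (Y : ℝ) ^ 2 + (S : ℝ) ^ 2 + r * S) := by gcongr
      _ = _ := by ring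
  -- the rounding error
  have h5 : ‖(((((X ^ 2 - Y ^ 2 : ℤ) : ℝ) / (S : ℝ) - (q1 : ℝ) : ℝ) : ℂ) +
          ((((2 * X * Y : ℤ) : ℝ) / (S : ℝ) - (q2 : ℝ) : ℝ) : ℂ) * Complex.I)‖ ≤ 2 := by
    refine (norm_add_le _ _).trans ?_
    rw [norm_mul, Complex.norm_I, mul_one, Complex.norm_real, Complex.norm_real,
      Real.norm_of_nonneg (by linarith), Real.norm_of_nonneg (by linarith)]
    linarith
  have h6 : ((r * (X ^ 2 + Y ^ 2 + S ^ 2 + r * S) : ℤ) : ℝ) / ((S ^ 2 : ℤ) : ℝ) =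
      (r : ℝ) * ((X : ℝ) ^ 2 + (Y : ℝ) ^ 2 + (S : ℝ) ^ 2 + r * S) / (S : ℝ) ^ 2 := by
    push_cast
    ring
  rw [h6] at e6
  refine (norm_add_le _ _).trans ?_
  have h7 : ((q3 + 3 : ℤ) : ℝ) = (q3 : ℝ) + 3 := by push_cast; ring
  rw [h7]
  linarith

lemma radius_nonneg {X Y r : ℤ} (hr : 0 ≤ r) :
    0 ≤ r * (X ^ 2 + Y ^ 2 + S ^ 2 + r * S) / S ^ 2 + 3 := by
  have hS : (0 : ℤ) < S := by norm_num [S]
  have : 0 ≤ r * (X ^ 2 + Y ^ 2 + S ^ 2 + r * S) / S ^ 2 := by
    apply Int.ediv_nonneg <;> positivity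
  omega

lemma esc_of_escapes (n : ℕ) : ∀ (X Y r : ℤ), 0 ≤ r → escapes n X Y r = true → ∀ w : ℂ,
    ‖w * (S : ℂ) - ((X : ℂ) + (Y : ℂ) * Complex.I)‖ ≤ (r : ℝ) → Esc w := by
  induction n with
  | zero =>
    intro X Y r hr h w hw
    simp only [escapes, decide_eq_true_eq] at h
    exact esc_of_far hw h
  | succ n ih =>
    intro X Y r hr h w hw
    simp only [escapes, Bool.or_eq_true, decide_eq_true_eq] at h
    rcases h with h | h
    · exact esc_of_far hw h
    · exact (ih _ _ _ (radius_nonneg hr) h (g w) (step_disk hr hw)).of_g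

/-- a square is contained in a disk -/
lemma square_disk {w : ℂ} {X Y h : ℤ} (hh : 0 ≤ h) (h1 : |w.re * S - X| ≤ h)
    (h2 : |w.im * S - Y| ≤ h) :
    ‖w * (S : ℂ) - ((X : ℂ) + (Y : ℂ) * Complex.I)‖ ≤ ((3 * h / 2 + 1 : ℤ) : ℝ) := by
  have e : w * (S : ℂ) - ((X : ℂ) + (Y : ℂ) * Complex.I) =
      ((w.re * S - X : ℝ) : ℂ) + ((w.im * S - Y : ℝ) : ℂ) * Complex.I := by
    apply Complex.ext <;> simp
  obtain ⟨-, e2⟩ := div_err (3 * h) 2 (by norm_num)
  rw [e, Complex.norm_add_mul_I]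
  have hh' : (0 : ℝ) ≤ h := by exact_mod_cast hh
  push_cast at e2 ⊢
  refine le_trans ?_ e2.le
  apply Real.sqrt_le_iff.mpr
  constructor
  · positivity
  · have a1 := sq_abs (w.re * S - X)
    have a2 := sq_abs (w.im * S - Y)
    have b1 : |w.re * S - X| ^ 2 ≤ (h : ℝ) ^ 2 := by gcongr
    have b2 : |w.im * S - Y| ^ 2 ≤ (h : ℝ) ^ 2 := by gcongr
    nlinarith [sq_nonneg (h : ℝ)]

lemma esc_of_cover (n : ℕ) : ∀ (X Y h : ℤ), 0 ≤ h → (2 : ℤ) ^ n ∣ h → cover n X Y h = true →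
    ∀ w : ℂ, |w.re * S - X| ≤ h → |w.im * S - Y| ≤ h → Esc w := by
  induction n with
  | zero =>
    intro X Y h hh _ hc w h1 h2
    refine esc_of_escapes 6 X Y _ ?_ hc w (square_disk hh h1 h2)
    omega
  | succ n ih =>
    intro X Y h hh hdvd hc w h1 h2
    simp only [cover, Bool.or_eq_true, Bool.and_eq_true] at hc
    rcases hc with hc | hc
    · refine esc_of_escapes 6 X Y _ ?_ hc w (square_disk hh h1 h2)
      omega
    · obtain ⟨k, rfl⟩ : ∃ k, h = 2 * k := by
        obtain ⟨k, hk⟩ := hdvd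
        exact ⟨2 ^ n * k, by rw [hk]; ring⟩
      have hk2 : 2 * k / 2 = k := by omega
      rw [hk2] at hc
      have hk0 : 0 ≤ k := by omega
      have hdk : (2 : ℤ) ^ n ∣ k := by
        obtain ⟨j, hj⟩ := hdvd
        refine ⟨j, ?_⟩
        have : 2 * k = 2 * (2 ^ n * j) := by rw [hj]; ring
        omega
      obtain ⟨⟨⟨c1, c2⟩, c3⟩, c4⟩ := hc
      rw [abs_le] at h1 h2
      push_cast at h1 h2
      rcases le_total (w.re * S) X with hx | hx <;> rcases le_total (w.im * S) Y with hy | hy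
      · exact ih _ _ _ hk0 hdk c1 w (by rw [abs_le]; push_cast; constructor <;> linarith)
          (by rw [abs_le]; push_cast; constructor <;> linarith)
      · exact ih _ _ _ hk0 hdk c2 w (by rw [abs_le]; push_cast; constructor <;> linarith)
          (by rw [abs_le]; push_cast; constructor <;> linarith)
      · exact ih _ _ _ hk0 hdk c3 w (by rw [abs_le]; push_cast; constructor <;> linarith)
          (by rw [abs_le]; push_cast; constructor <;> linarith)
      · exact ih _ _ _ hk0 hdk c4 w (by rw [abs_le]; push_cast; constructor <;> linarith)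
          (by rw [abs_le]; push_cast; constructor <;> linarith)

/-! ### The computation -/

set_option maxRecDepth 100000 in
lemma cover1 : cover 8 1135957 262144 262144 = true := by decide +kernel

set_option maxRecDepth 100000 in
lemma cover2 : cover 8 1135957 786432 262144 = true := by decide +kernel

set_option maxRecDepth 100000 in
lemma cover3 : cover 8 1135957 (-262144) 262144 = true := by decide +kernel

set_option maxRecDepth 100000 in
lemma cover4 : cover 8 1135957 (-786432) 262144 = true := by decide +kernel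

/-- every point with real part at least `5 / 6` escapes -/
lemma esc_of_re {w : ℂ} (h : 5 / 6 ≤ w.re) : Esc w := by
  by_cases hw : (1.2075 : ℝ) < ‖w‖
  · exact ⟨0, by simpa using hw⟩
  push Not at hw
  have hn : ‖w‖ ^ 2 = w.re ^ 2 + w.im ^ 2 := by
    rw [Complex.sq_norm, Complex.normSq_apply]; ring
  have h0 := norm_nonneg w
  have h1 : w.re ≤ 1.2075 := (Complex.re_le_norm w).trans hw
  have h2 : w.im ^ 2 ≤ 1 := by nlinarith
  have h3 : |w.im| ≤ 1 := by
    rw [abs_le]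
    constructor <;> nlinarith
  rw [abs_le] at h3
  obtain ⟨h4, h5⟩ := h3
  norm_num at h1
  have hS := S_real
  have hdvd : (2 : ℤ) ^ 8 ∣ 262144 := by norm_num
  rcases le_total 0 w.im with h6 | h6
  · rcases le_total w.im (1 / 2) with h7 | h7
    · refine esc_of_cover 8 _ _ _ (by norm_num) hdvd cover1 w ?_ ?_ <;>
        rw [hS, abs_le] <;> push_cast <;> constructor <;> linarith
    · refine esc_of_cover 8 _ _ _ (by norm_num) hdvd cover2 w ?_ ?_ <;>
        rw [hS, abs_le] <;> push_cast <;> constructor <;> linarith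
  · rcases le_total (-1 / 2) w.im with h7 | h7
    · refine esc_of_cover 8 _ _ _ (by norm_num) hdvd cover3 w ?_ ?_ <;>
        rw [hS, abs_le] <;> push_cast <;> constructor <;> linarith
    · refine esc_of_cover 8 _ _ _ (by norm_num) hdvd cover4 w ?_ ?_ <;>
        rw [hS, abs_le] <;> push_cast <;> constructor <;> linarith

/-! ### Escaping points are not preperiodic -/

lemma norm_step {w : ℂ} (h : (1.2075 : ℝ) < ‖w‖) : ‖w‖ < ‖g w‖ := by
  have h1 : ‖w ^ 2‖ ≤ ‖g w‖ + 1 / 4 := by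
    have e : w ^ 2 = g w - 1 / 4 := by unfold g; ring
    rw [e]
    refine (norm_sub_le _ _).trans ?_
    norm_num
  rw [norm_pow] at h1
  norm_num at h
  nlinarith

lemma norm_strictMono {w : ℂ} (h : (1.2075 : ℝ) < ‖w‖) :
    StrictMono (fun k : ℕ => ‖g^[k] w‖) := by
  have h1 : ∀ k : ℕ, (1.2075 : ℝ) < ‖g^[k] w‖ := by
    intro k
    induction k with
    | zero => simpa using h
    | succ k ih =>
      rw [Function.iterate_succ_apply']
      exact ih.trans (norm_step ih)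
  apply strictMono_nat_of_lt_succ
  intro k
  rw [Function.iterate_succ_apply']
  exact norm_step (h1 k)

lemma not_preper {w : ℂ} (h : Esc w) {m n : ℕ} (hmn : m < n) : g^[m] w ≠ g^[n] w := by
  intro he
  obtain ⟨N, hN⟩ := h
  have h1 := norm_strictMono hN hmn
  simp only [← Function.iterate_add_apply] at h1
  rw [add_comm m N, add_comm n N, Function.iterate_add_apply g N m,
    Function.iterate_add_apply g N n, he] at h1
  exact lt_irrefl _ h1

/-- the map `z ↦ z² + z` -/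
def f {R : Type*} [CommRing R] (z : R) : R := z ^ 2 + z

/-- `x` is preperiodic for `f`: its forward orbit is finite -/
def Preperiodic {R : Type*} [CommRing R] (x : R) : Prop :=
  (Set.range fun n : ℕ => f^[n] x).Finite

lemma Preperiodic.exists {R : Type*} [CommRing R] {x : R} (h : Preperiodic x) :
    ∃ m n : ℕ, m < n ∧ f^[m] x = f^[n] x := by
  by_contra hc
  push Not at hc
  have hinj : Function.Injective (fun n : ℕ => f^[n] x) := by
    intro m n hmn
    rcases lt_trichotomy m n with h1 | h1 | h1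
    · exact absurd hmn (hc m n h1)
    · exact h1
    · exact absurd hmn.symm (hc n m h1)
  exact Set.infinite_range_of_injective hinj h

lemma iterate_conj (z : ℂ) (n : ℕ) : f^[n] z + 1 / 2 = g^[n] (z + 1 / 2) := by
  induction n with
  | zero => simp
  | succ n ih =>
    rw [Function.iterate_succ_apply', Function.iterate_succ_apply', ← ih]
    unfold f g
    ring

/-- a preperiodic complex number has real part less than `1 / 3` -/
lemma re_lt {z : ℂ} {m n : ℕ} (hmn : m < n) (h : f^[m] z = f^[n] z) : z.re < 1 / 3 := by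
  by_contra hc
  push Not at hc
  have h1 : Esc (z + 1 / 2) := by
    apply esc_of_re
    simp only [Complex.add_re]
    norm_num
    linarith
  apply not_preper h1 hmn
  rw [← iterate_conj, ← iterate_conj, h]

lemma iterate_map {R T : Type*} [CommRing R] [CommRing T] (φ : R →+* T) (x : R) (n : ℕ) :
    φ (f^[n] x) = f^[n] (φ x) := by
  induction n with
  | zero => simp
  | succ n ih =>
    rw [Function.iterate_succ_apply', Function.iterate_succ_apply', ← ih]
    unfold f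
    simp

/-- There are no preperiodic points `a`, `b`, `c` of `z ↦ z² + z` over the algebraic closure
of `ℚ` with `a + b + c = 1`. -/
theorem result : ∀ a b c : AlgebraicClosure ℚ,
    Preperiodic a → Preperiodic b → Preperiodic c → a + b + c ≠ 1 := by
  intro a b c ha hb hc habc
  obtain ⟨φ⟩ : Nonempty (AlgebraicClosure ℚ →+* ℂ) := by
    have : Algebra.IsAlgebraic ℚ (AlgebraicClosure ℚ) := AlgebraicClosure.isAlgebraic ℚ
    exact ⟨(IsAlgClosed.lift : AlgebraicClosure ℚ →ₐ[ℚ] ℂ).toRingHom⟩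
  have key : ∀ x : AlgebraicClosure ℚ, Preperiodic x → (φ x).re < 1 / 3 := by
    intro x hx
    obtain ⟨m, n, hmn, h⟩ := hx.exists
    apply re_lt hmn
    rw [← iterate_map, ← iterate_map, h]
  have h1 := key a ha
  have h2 := key b hb
  have h3 := key c hc
  have h4 : (φ a).re + (φ b).re + (φ c).re = 1 := by
    rw [← Complex.add_re, ← Complex.add_re, ← map_add, ← map_add, habc, map_one, Complex.one_re]
  linarith

end Pool.Agent.Results.MP_a37635_nt.SumNotOne
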